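import Mathlib

set_option autoImplicit false

open Set Filter Topology MeasureTheory

namespace Pool.Agent.Helper342.Hom

/-- the curve `γ` turns by the total angle `Δ` about `0` on `[a,b]` -/
def HasAngle (γ : ℝ → ℂ) (a b Δ : ℝ) : Prop :=
  ∃ φ : ℝ → ℝ, ContinuousOn φ (Icc a b) ∧
    (∀ t ∈ Icc a b, γ t = ‖γ t‖ * Complex.exp (φ t * Complex.I)) ∧ φ b - φ a = Δ

theorem HasAngle.congr {γ γ' : ℝ → ℂ} {a b Δ : ℝ} (h : HasAngle γ a b Δ)
    (he : ∀ t ∈ Icc a b, γ' t = γ t) : HasAngle γ' a b Δ := by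
  obtain ⟨φ, h1, h2, h3⟩ := h
  refine ⟨φ, h1, fun t ht => ?_, h3⟩
  rw [he t ht]; exact h2 t ht

theorem HasAngle.concat {γ : ℝ → ℂ} {a b c Δ₁ Δ₂ : ℝ} (hab : a ≤ b) (hbc : b ≤ c)
    (hb : γ b ≠ 0) (h₁ : HasAngle γ a b Δ₁) (h₂ : HasAngle γ b c Δ₂) :
    HasAngle γ a c (Δ₁ + Δ₂) := by
  obtain ⟨φ, h1, h2, h3⟩ := h₁
  obtain ⟨ψ, k1, k2, k3⟩ := h₂
  have e1 := h2 b ⟨hab, le_rfl⟩
  have e2 := k2 b ⟨le_rfl, hbc⟩
  have hn : (‖γ b‖ : ℂ) ≠ 0 := by simpa using hb
  have e3 : Complex.exp (φ b * Complex.I) = Complex.exp (ψ b * Complex.I) := by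
    apply mul_left_cancel₀ hn
    rw [← e1, ← e2]
  obtain ⟨n, hnn⟩ := Complex.exp_eq_exp_iff_exists_int.mp e3
  set χ : ℝ → ℝ := fun t => if t ≤ b then φ t else ψ t + (φ b - ψ b) with hχ
  have v1 : ∀ t ∈ Icc a b, χ t = φ t := fun t ht => by simp [hχ, ht.2]
  have v2 : ∀ t ∈ Icc b c, χ t = ψ t + (φ b - ψ b) := by
    intro t ht
    simp only [hχ]
    split_ifs with h
    · have : t = b := le_antisymm h ht.1
      subst this; ring
    · rfl
  have hshift : ∀ t : ℝ, Complex.exp (((ψ t + (φ b - ψ b) : ℝ) : ℂ) * Complex.I) =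
      Complex.exp (ψ t * Complex.I) := by
    intro t
    rw [Complex.exp_eq_exp_iff_exists_int]
    refine ⟨n, ?_⟩
    push_cast
    linear_combination hnn
  refine ⟨χ, ?_, ?_, ?_⟩
  · rw [← Icc_union_Icc_eq_Icc hab hbc]
    refine ContinuousOn.union_of_isClosed (h1.congr v1) ?_ isClosed_Icc isClosed_Icc
    exact (k1.add continuousOn_const).congr v2
  · intro t ht
    rcases le_total t b with h | h
    · rw [v1 t ⟨ht.1, h⟩]; exact h2 t ⟨ht.1, h⟩
    · rw [v2 t ⟨h, ht.2⟩, hshift]; exact k2 t ⟨h, ht.2⟩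
  · rw [v2 c ⟨hbc, le_rfl⟩, v1 a ⟨le_rfl, hab⟩, ← h3, ← k3]; ring

theorem HasAngle.conj_rev {γ : ℝ → ℂ} {a b Δ : ℝ} (c : ℝ)
    (h : HasAngle γ a b Δ) :
    HasAngle (fun t => (starRingEnd ℂ) (γ (c - t))) (c - b) (c - a) Δ := by
  obtain ⟨φ, h1, h2, h3⟩ := h
  have hm : MapsTo (fun t => c - t) (Icc (c - b) (c - a)) (Icc a b) := by
    intro t ht; constructor <;> simp only <;> linarith [ht.1, ht.2]
  refine ⟨fun t => -φ (c - t), ?_, ?_, ?_⟩
  · exact (h1.comp (by fun_prop) hm).neg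
  · intro t ht
    have := h2 _ (hm ht)
    simp only at this ⊢
    rw [RCLike.norm_conj]
    conv_lhs => rw [this]
    rw [map_mul, Complex.conj_ofReal, ← Complex.exp_conj]
    simp
  · simp only
    rw [show c - (c - a) = a by ring, show c - (c - b) = b by ring, ← h3]; ring

theorem HasAngle.rev {γ : ℝ → ℂ} {a b Δ : ℝ} (c : ℝ)
    (h : HasAngle γ a b Δ) : HasAngle (fun t => γ (c - t)) (c - b) (c - a) (-Δ) := by
  obtain ⟨φ, h1, h2, h3⟩ := h
  have hm : MapsTo (fun t => c - t) (Icc (c - b) (c - a)) (Icc a b) := by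
    intro t ht; constructor <;> simp only <;> linarith [ht.1, ht.2]
  refine ⟨fun t => φ (c - t), h1.comp (by fun_prop) hm, fun t ht => h2 _ (hm ht), ?_⟩
  simp only
  rw [show c - (c - a) = a by ring, show c - (c - b) = b by ring, ← h3]; ring

theorem HasAngle.mul_const {γ : ℝ → ℂ} {a b Δ : ℝ} (h : HasAngle γ a b Δ) (k : ℂ) :
    HasAngle (fun t => k * γ t) a b Δ := by
  obtain ⟨φ, h1, h2, h3⟩ := h
  refine ⟨fun t => Complex.arg k + φ t, continuousOn_const.add h1, ?_, by rw [← h3]; ring⟩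
  intro t ht
  have := h2 t ht
  show k * γ t = _
  rw [norm_mul]
  conv_lhs => rw [this, ← Complex.norm_mul_exp_arg_mul_I k]
  push_cast
  rw [add_mul, Complex.exp_add]
  ring

theorem HasAngle.of_slit {γ : ℝ → ℂ} {a b : ℝ} (hc : ContinuousOn γ (Icc a b))
    (hs : ∀ t ∈ Icc a b, γ t ∈ Complex.slitPlane) :
    HasAngle γ a b (Complex.arg (γ b) - Complex.arg (γ a)) := by
  refine ⟨fun t => Complex.arg (γ t), ?_, ?_, rfl⟩
  · intro t ht
    exact ContinuousAt.comp_continuousWithinAt (g := Complex.arg)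
      (Complex.continuousAt_arg (hs t ht)) (hc t ht)
  · intro t _
    exact (Complex.norm_mul_exp_arg_mul_I (γ t)).symm

theorem HasAngle.exists_of_C1 {γ γ' : ℝ → ℂ} (hd : ∀ t, HasDerivAt γ (γ' t) t)
    (hc : Continuous γ') (h0 : ∀ t, γ t ≠ 0) (a b : ℝ) :
    ∃ Δ, HasAngle γ a b Δ := by
  have cγ : Continuous γ := continuous_iff_continuousAt.mpr fun t => (hd t).continuousAt
  have cq : Continuous (fun t => γ' t / γ t) := hc.div cγ h0
  set h : ℝ → ℂ := fun t => ∫ s in a..t, γ' s / γ s with hh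
  have dh : ∀ t, HasDerivAt h (γ' t / γ t) t := fun t =>
    intervalIntegral.integral_hasDerivAt_right (cq.intervalIntegrable _ _)
      (cq.stronglyMeasurableAtFilter _ _) cq.continuousAt
  have de : ∀ t, HasDerivAt (fun t => γ t * Complex.exp (-h t)) 0 t := by
    intro t
    have h1 := (hd t).mul (dh t).neg.cexp
    refine h1.congr_deriv ?_
    field_simp [h0 t]
    ring
  have hconst : ∀ t, γ t * Complex.exp (-h t) = γ a := by
    intro t
    have h1 := is_const_of_deriv_eq_zero (f := fun t => γ t * Complex.exp (-h t))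
      (fun t => (de t).differentiableAt) (fun t => (de t).deriv) t a
    rw [h1]
    simp [hh]
  have hγ : ∀ t, γ t = γ a * Complex.exp (h t) := by
    intro t
    rw [← hconst t, mul_assoc, ← Complex.exp_add]
    simp
  have ch : Continuous h := continuous_iff_continuousAt.mpr fun t => (dh t).continuousAt
  refine ⟨_, fun t => Complex.arg (γ a) + (h t).im, ?_, ?_, rfl⟩
  · exact (continuous_const.add (Complex.continuous_im.comp ch)).continuousOn
  · intro t _
    have h1 : ‖γ t‖ = ‖γ a‖ * Real.exp (h t).re := by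
      rw [hγ t, norm_mul, Complex.norm_exp]
    rw [h1]
    conv_lhs => rw [hγ t, ← Complex.norm_mul_exp_arg_mul_I (γ a)]
    push_cast
    rw [add_mul, Complex.exp_add]
    have h2 : Complex.exp (h t) = Complex.exp ((h t).re : ℂ) * Complex.exp ((h t).im * Complex.I) := by
      rw [← Complex.exp_add, Complex.re_add_im]
    rw [h2]
    ring

end Pool.Agent.Helper342.Hom
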