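import Mathlib

set_option autoImplicit false

open MeasureTheory Set Filter Topology Matrix
open scoped BoundedContinuousFunction NNReal

namespace Pool.Agent.Helper342.Hom

/-- the state space -/
abbrev V := Fin 8 → ℝ

theorem mulVec_norm_le (M : Matrix (Fin 8) (Fin 8) ℝ) (b : ℝ) (hM : ∀ i j, |M i j| ≤ b) (x : V) :
    ‖M *ᵥ x‖ ≤ 8 * b * ‖x‖ := by
  have hb : 0 ≤ b := (abs_nonneg _).trans (hM 0 0)
  rw [pi_norm_le_iff_of_nonneg (by positivity)]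
  intro i
  have h1 : (M *ᵥ x) i = ∑ j, M i j * x j := rfl
  rw [h1]
  calc ‖∑ j, M i j * x j‖ ≤ ∑ j, ‖M i j * x j‖ := norm_sum_le _ _
    _ ≤ ∑ _j : Fin 8, b * ‖x‖ := by
        apply Finset.sum_le_sum
        intro j _
        rw [norm_mul]
        exact mul_le_mul (hM i j) (norm_le_pi_norm x j) (norm_nonneg _) hb
    _ = 8 * b * ‖x‖ := by simp; ring

/-- clamp to [0,L] -/
noncomputable def clamp (L θ : ℝ) : ℝ := max 0 (min θ L)

theorem clamp_mem (L θ : ℝ) (hL : 0 ≤ L) : clamp L θ ∈ Icc (0:ℝ) L := by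
  unfold clamp
  constructor
  · exact le_max_left _ _
  · exact max_le hL (min_le_right _ _)

theorem clamp_eq (L θ : ℝ) (h : θ ∈ Icc (0:ℝ) L) : clamp L θ = θ := by
  unfold clamp
  rw [min_eq_left h.2, max_eq_right h.1]

theorem clamp_cont (L : ℝ) : Continuous (clamp L) := by
  unfold clamp; fun_prop

/-- the coefficient function -/
noncomputable def cf (L : ℝ) (side : Fin 8 → Prop) [DecidablePred side] (e : ℝ → V) (θ : ℝ) : V :=
  fun i => ∫ s in (if side i then 0 else L)..θ, e s i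

theorem cf_deriv (L : ℝ) (side : Fin 8 → Prop) [DecidablePred side] (e : ℝ → V)
    (he : Continuous e) (θ : ℝ) : HasDerivAt (cf L side e) (e θ) θ := by
  rw [hasDerivAt_pi]
  intro i
  have hc : Continuous (fun s => e s i) := (continuous_apply i).comp he
  exact intervalIntegral.integral_hasDerivAt_right (hc.intervalIntegrable _ _)
    (hc.stronglyMeasurableAtFilter _ _) hc.continuousAt

theorem cf_sub_le (L : ℝ) (hL : 0 ≤ L) (side : Fin 8 → Prop) [DecidablePred side] (e e' : ℝ → V)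
    (he : Continuous e) (he' : Continuous e') (N : ℝ)
    (hN : ∀ s, ‖e s - e' s‖ ≤ N) (θ : ℝ) (hθ : θ ∈ Icc (0:ℝ) L) :
    ‖cf L side e θ - cf L side e' θ‖ ≤ L * N := by
  have hN0 : 0 ≤ N := (norm_nonneg _).trans (hN 0)
  rw [pi_norm_le_iff_of_nonneg (by positivity)]
  intro i
  have hc : Continuous (fun s => e s i) := (continuous_apply i).comp he
  have hc' : Continuous (fun s => e' s i) := (continuous_apply i).comp he'
  simp only [cf, Pi.sub_apply]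
  rw [← intervalIntegral.integral_sub (hc.intervalIntegrable _ _) (hc'.intervalIntegrable _ _)]
  have h1 : ∀ s ∈ Set.uIoc (if side i then 0 else L) θ, ‖e s i - e' s i‖ ≤ N := by
    intro s _
    exact (norm_le_pi_norm (e s - e' s) i).trans (hN s)
  refine (intervalIntegral.norm_integral_le_of_norm_le_const h1).trans ?_
  rw [mul_comm]
  apply mul_le_mul_of_nonneg_right _ hN0
  split_ifs
  · rw [abs_of_nonneg (by linarith [hθ.1])]; linarith [hθ.2]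
  · rw [abs_of_nonpos (by linarith [hθ.2])]; linarith [hθ.1]

theorem cf_zero (L : ℝ) (side : Fin 8 → Prop) [DecidablePred side] (θ : ℝ) :
    cf L side (fun _ => 0) θ = 0 := by
  funext i
  simp [cf]

theorem bvp (L : ℝ) (hL : 0 < L) (side : Fin 8 → Prop) [DecidablePred side]
    (Φ Φ' A Ψ : ℝ → Matrix (Fin 8) (Fin 8) ℝ) (Yt Yt' : ℝ → V) (σ : ℝ → ℝ) (f : V → V)
    (hΦ : ∀ θ i j, HasDerivAt (fun θ => Φ θ i j) (Φ' θ i j) θ)
    (hΦ'c : ∀ i j, Continuous (fun θ => Φ' θ i j))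
    (hΨc : ∀ i j, Continuous (fun θ => Ψ θ i j))
    (hY : ∀ θ i, HasDerivAt (fun θ => Yt θ i) (Yt' θ i) θ)
    (hY'c : ∀ i, Continuous (fun θ => Yt' θ i))
    (hσc : Continuous σ) (hσ : ∀ θ, |σ θ| ≤ 1)
    (cΦ cΨ ε1 ε2 ε3 κ δ r : ℝ) (hδ : 0 < δ) (hr : 0 < r) (hκ : 0 ≤ κ)
    (bΦ : ∀ θ i j, |Φ θ i j| ≤ cΦ) (bΨ : ∀ θ i j, |Ψ θ i j| ≤ cΨ)
    (b1 : ∀ θ i j, |(1 - Ψ θ * Φ θ) i j| ≤ ε1)
    (b2 : ∀ θ i j, |(Φ' θ - σ θ • (A θ * Φ θ)) i j| ≤ ε2)
    (b3 : ∀ θ, ‖Yt' θ - σ θ • f (Yt θ)‖ ≤ ε3)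
    (b4 : ∀ θ, ∀ z z' : V, ‖z‖ ≤ δ → ‖z'‖ ≤ δ →
      ‖f (Yt θ + z) - f (Yt θ + z') - A θ *ᵥ (z - z')‖ ≤ κ * ‖z - z'‖)
    (hsmall : 8 * cΦ * (L * r) < δ)
    (hq : 8 * ε1 + 8 * cΨ * (8 * ε2 * L + κ * (8 * cΦ * L)) ≤ 1 / 2)
    (hd : 8 * cΨ * ε3 ≤ r / 2) :
    ∃ c : ℝ → V, Continuous c ∧ (∀ θ ∈ Icc (0:ℝ) L, ‖c θ‖ ≤ L * r) ∧
      (∀ i, side i → c 0 i = 0) ∧ (∀ i, ¬ side i → c L i = 0) ∧
      ∀ θ ∈ Icc (0:ℝ) L, HasDerivAt (fun θ => Yt θ + Φ θ *ᵥ c θ)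
        (σ θ • f (Yt θ + Φ θ *ᵥ c θ)) θ := by
  have hcΦ : 0 ≤ cΦ := (abs_nonneg _).trans (bΦ 0 0 0)
  have hcΨ : 0 ≤ cΨ := (abs_nonneg _).trans (bΨ 0 0 0)
  have hε1 : 0 ≤ ε1 := (abs_nonneg _).trans (b1 0 0 0)
  have hε2 : 0 ≤ ε2 := (abs_nonneg _).trans (b2 0 0 0)
  -- continuity facts
  have hΦc : ∀ i j, Continuous (fun θ => Φ θ i j) := fun i j =>
    continuous_iff_continuousAt.mpr fun θ => (hΦ θ i j).continuousAt
  have hΦm : Continuous Φ := continuous_matrix hΦc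
  have hΦ'm : Continuous Φ' := continuous_matrix hΦ'c
  have hΨm : Continuous Ψ := continuous_matrix hΨc
  have hYc : Continuous Yt := continuous_pi fun i =>
    continuous_iff_continuousAt.mpr fun θ => (hY θ i).continuousAt
  have hY'm : Continuous Yt' := continuous_pi hY'c
  -- operator at theta
  set Tp : (ℝ → V) → ℝ → V := fun e θ =>
    e θ - Ψ θ *ᵥ (Yt' θ + Φ' θ *ᵥ cf L side e θ + Φ θ *ᵥ e θ
      - σ θ • f (Yt θ + Φ θ *ᵥ cf L side e θ)) with hTp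
  have cfb : ∀ e : ℝ → V, Continuous e → (∀ s, ‖e s‖ ≤ r) → ∀ θ ∈ Icc (0:ℝ) L,
      ‖cf L side e θ‖ ≤ L * r := by
    intro e he hb θ hθ
    have h1 := cf_sub_le L hL.le side e (fun _ => 0) he continuous_const r (by simpa using hb) θ hθ
    rwa [cf_zero, sub_zero] at h1
  have tube : ∀ e : ℝ → V, Continuous e → (∀ s, ‖e s‖ ≤ r) → ∀ θ ∈ Icc (0:ℝ) L,
      ‖Φ θ *ᵥ cf L side e θ‖ < δ := by
    intro e he hb θ hθ
    refine lt_of_le_of_lt (mulVec_norm_le _ cΦ (bΦ θ) _) (lt_of_le_of_lt ?_ hsmall)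
    exact mul_le_mul_of_nonneg_left (cfb e he hb θ hθ) (by positivity)
  -- difference estimate
  have diff : ∀ e e' : ℝ → V, Continuous e → Continuous e' → (∀ s, ‖e s‖ ≤ r) →
      (∀ s, ‖e' s‖ ≤ r) → ∀ N : ℝ, (∀ s, ‖e s - e' s‖ ≤ N) → ∀ θ ∈ Icc (0:ℝ) L,
      ‖Tp e θ - Tp e' θ‖ ≤ 1 / 2 * N := by
    intro e e' he he' hb hb' N hN θ hθ
    have hN0 : 0 ≤ N := (norm_nonneg _).trans (hN 0)
    set c := cf L side e θ with hc
    set c' := cf L side e' θ with hc'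
    have hcc : ‖c - c'‖ ≤ L * N := cf_sub_le L hL.le side e e' he he' N hN θ hθ
    have key : Tp e θ - Tp e' θ = (1 - Ψ θ * Φ θ) *ᵥ (e θ - e' θ)
        - Ψ θ *ᵥ ((Φ' θ - σ θ • (A θ * Φ θ)) *ᵥ (c - c')
          - σ θ • (f (Yt θ + Φ θ *ᵥ c) - f (Yt θ + Φ θ *ᵥ c')
            - A θ *ᵥ (Φ θ *ᵥ c - Φ θ *ᵥ c'))) := by
      simp only [hTp, ← hc, ← hc', Matrix.sub_mulVec, Matrix.one_mulVec, Matrix.mulVec_sub,
        Matrix.mulVec_add, Matrix.smul_mulVec, Matrix.mulVec_smul, ← Matrix.mulVec_mulVec,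
        smul_sub]
      abel
    rw [key]
    have e1 : ‖(1 - Ψ θ * Φ θ) *ᵥ (e θ - e' θ)‖ ≤ 8 * ε1 * N :=
      (mulVec_norm_le _ ε1 (b1 θ) _).trans (mul_le_mul_of_nonneg_left (hN θ) (by positivity))
    have e2 : ‖(Φ' θ - σ θ • (A θ * Φ θ)) *ᵥ (c - c')‖ ≤ 8 * ε2 * (L * N) :=
      (mulVec_norm_le _ ε2 (b2 θ) _).trans (mul_le_mul_of_nonneg_left hcc (by positivity))
    have e3 : ‖Φ θ *ᵥ c - Φ θ *ᵥ c'‖ ≤ 8 * cΦ * (L * N) := by
      rw [← Matrix.mulVec_sub]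
      exact (mulVec_norm_le _ cΦ (bΦ θ) _).trans (mul_le_mul_of_nonneg_left hcc (by positivity))
    have e4 : ‖f (Yt θ + Φ θ *ᵥ c) - f (Yt θ + Φ θ *ᵥ c')
            - A θ *ᵥ (Φ θ *ᵥ c - Φ θ *ᵥ c')‖ ≤ κ * (8 * cΦ * (L * N)) :=
      (b4 θ _ _ (tube e he hb θ hθ).le (tube e' he' hb' θ hθ).le).trans
        (mul_le_mul_of_nonneg_left e3 hκ)
    have e5 : ‖σ θ • (f (Yt θ + Φ θ *ᵥ c) - f (Yt θ + Φ θ *ᵥ c')
            - A θ *ᵥ (Φ θ *ᵥ c - Φ θ *ᵥ c'))‖ ≤ κ * (8 * cΦ * (L * N)) := by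
      rw [norm_smul, Real.norm_eq_abs]
      calc |σ θ| * _ ≤ 1 * _ := mul_le_mul_of_nonneg_right (hσ θ) (norm_nonneg _)
        _ ≤ _ := by rw [one_mul]; exact e4
    have e6 := mulVec_norm_le (Ψ θ) cΨ (bΨ θ) ((Φ' θ - σ θ • (A θ * Φ θ)) *ᵥ (c - c')
          - σ θ • (f (Yt θ + Φ θ *ᵥ c) - f (Yt θ + Φ θ *ᵥ c')
            - A θ *ᵥ (Φ θ *ᵥ c - Φ θ *ᵥ c')))
    have e7 : ‖(Φ' θ - σ θ • (A θ * Φ θ)) *ᵥ (c - c')
          - σ θ • (f (Yt θ + Φ θ *ᵥ c) - f (Yt θ + Φ θ *ᵥ c')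
            - A θ *ᵥ (Φ θ *ᵥ c - Φ θ *ᵥ c'))‖ ≤ 8 * ε2 * (L * N) + κ * (8 * cΦ * (L * N)) :=
      (norm_sub_le _ _).trans (add_le_add e2 e5)
    calc _ ≤ 8 * ε1 * N + 8 * cΨ * (8 * ε2 * (L * N) + κ * (8 * cΦ * (L * N))) := by
          refine (norm_sub_le _ _).trans (add_le_add e1 (e6.trans ?_))
          exact mul_le_mul_of_nonneg_left e7 (by positivity)
      _ = (8 * ε1 + 8 * cΨ * (8 * ε2 * L + κ * (8 * cΦ * L))) * N := by ring
      _ ≤ 1 / 2 * N := mul_le_mul_of_nonneg_right hq hN0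
  -- value at zero
  have T0 : ∀ θ, ‖Tp (fun _ => 0) θ‖ ≤ r / 2 := by
    intro θ
    simp only [hTp, cf_zero, Matrix.mulVec_zero, add_zero, zero_sub, norm_neg]
    refine (mulVec_norm_le _ cΨ (bΨ θ) _).trans (le_trans ?_ hd)
    exact mul_le_mul_of_nonneg_left (b3 θ) (by positivity)
  have Tb : ∀ e : ℝ → V, Continuous e → (∀ s, ‖e s‖ ≤ r) → ∀ θ ∈ Icc (0:ℝ) L, ‖Tp e θ‖ ≤ r := by
    intro e he hb θ hθ
    have h1 := diff e (fun _ => 0) he continuous_const hb (by intro s; simpa using hr.le) r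
      (by simpa using hb) θ hθ
    have h2 := T0 θ
    have h3 : Tp e θ = (Tp e θ - Tp (fun _ => 0) θ) + Tp (fun _ => 0) θ := by abel
    rw [h3]
    refine (norm_add_le _ _).trans ?_
    linarith
  -- continuity of f in the open tube
  have fcont : ∀ θ, ∀ z : V, ‖z‖ < δ → ContinuousAt f (Yt θ + z) := by
    intro θ z hz
    rw [ContinuousAt, tendsto_iff_norm_sub_tendsto_zero]
    have hpos : 0 < δ - ‖z‖ := by linarith
    have hev : ∀ᶠ y in 𝓝 (Yt θ + z), ‖f y - f (Yt θ + z)‖ ≤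
        κ * ‖y - (Yt θ + z)‖ + ‖A θ *ᵥ (y - (Yt θ + z))‖ := by
      filter_upwards [Metric.ball_mem_nhds (Yt θ + z) hpos] with y hy
      rw [Metric.mem_ball, dist_eq_norm] at hy
      have hz' : ‖y - Yt θ‖ ≤ δ := by
        have : y - Yt θ = (y - (Yt θ + z)) + z := by abel
        rw [this]
        refine (norm_add_le _ _).trans ?_
        linarith
      have h1 := b4 θ (y - Yt θ) z hz' hz.le
      have h2 : Yt θ + (y - Yt θ) = y := by abel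
      have h3 : y - Yt θ - z = y - (Yt θ + z) := by abel
      rw [h2, h3] at h1
      have h4 : f y - f (Yt θ + z) = (f y - f (Yt θ + z) - A θ *ᵥ (y - (Yt θ + z)))
        + A θ *ᵥ (y - (Yt θ + z)) := by abel
      rw [h4]
      exact (norm_add_le _ _).trans (add_le_add h1 le_rfl)
    refine squeeze_zero' (Eventually.of_forall fun _ => norm_nonneg _) hev ?_
    have hc1 : Continuous (fun y : V => κ * ‖y - (Yt θ + z)‖ + ‖A θ *ᵥ (y - (Yt θ + z))‖) := by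
      fun_prop
    have := hc1.tendsto (Yt θ + z)
    simpa using this
  have Tc : ∀ e : ℝ → V, Continuous e → (∀ s, ‖e s‖ ≤ r) →
      Continuous (fun θ => Tp e (clamp L θ)) := by
    intro e he hb
    rw [continuous_iff_continuousAt]
    intro θ0
    have hcl := (clamp_cont L).continuousAt (x := θ0)
    have hcfc : Continuous (cf L side e) := continuous_iff_continuousAt.mpr fun θ =>
      (cf_deriv L side e he θ).continuousAt
    have hmem := clamp_mem L θ0 hL.le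
    have h1 : ContinuousAt (Tp e) (clamp L θ0) := by
      have ha : Continuous (fun θ => Yt θ + Φ θ *ᵥ cf L side e θ) :=
        hYc.add (hΦm.matrix_mulVec hcfc)
      have hb1 : ContinuousAt (fun θ => f (Yt θ + Φ θ *ᵥ cf L side e θ)) (clamp L θ0) :=
        ContinuousAt.comp (f := fun θ => Yt θ + Φ θ *ᵥ cf L side e θ)
          (fcont _ _ (tube e he hb _ hmem)) ha.continuousAt
      have hc2 : Continuous (fun θ => Yt' θ + Φ' θ *ᵥ cf L side e θ + Φ θ *ᵥ e θ) :=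
        (hY'm.add (hΦ'm.matrix_mulVec hcfc)).add (hΦm.matrix_mulVec he)
      have hd2 : ContinuousAt (fun θ => Yt' θ + Φ' θ *ᵥ cf L side e θ + Φ θ *ᵥ e θ
        - σ θ • f (Yt θ + Φ θ *ᵥ cf L side e θ)) (clamp L θ0) :=
        hc2.continuousAt.sub (hσc.continuousAt.smul hb1)
      have he2 : ContinuousAt (fun θ => Ψ θ *ᵥ (Yt' θ + Φ' θ *ᵥ cf L side e θ + Φ θ *ᵥ e θ
        - σ θ • f (Yt θ + Φ θ *ᵥ cf L side e θ))) (clamp L θ0) := by
        have hmv : Continuous (fun p : Matrix (Fin 8) (Fin 8) ℝ × V => p.1 *ᵥ p.2) :=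
          continuous_fst.matrix_mulVec continuous_snd
        exact ContinuousAt.comp (f := fun θ => (Ψ θ, Yt' θ + Φ' θ *ᵥ cf L side e θ + Φ θ *ᵥ e θ
        - σ θ • f (Yt θ + Φ θ *ᵥ cf L side e θ)))
          (g := fun p : Matrix (Fin 8) (Fin 8) ℝ × V => p.1 *ᵥ p.2)
          hmv.continuousAt (hΨm.continuousAt.prodMk hd2)
      exact he.continuousAt.sub he2
    exact ContinuousAt.comp (f := clamp L) (g := Tp e) h1 hcl
  -- the contraction
  set B : Set (ℝ →ᵇ V) := Metric.closedBall 0 r with hB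
  have Bw : ∀ w : B, ∀ s, ‖(w : ℝ →ᵇ V) s‖ ≤ r := by
    intro w s
    have h1 : ‖(w : ℝ →ᵇ V)‖ ≤ r := mem_closedBall_zero_iff.mp w.2
    exact ((w : ℝ →ᵇ V).norm_coe_le_norm s).trans h1
  set Psi : B → B := fun w =>
    ⟨BoundedContinuousFunction.ofNormedAddCommGroup (fun θ => Tp (w : ℝ →ᵇ V) (clamp L θ))
      (Tc _ (w : ℝ →ᵇ V).continuous (Bw w)) r
      (fun θ => Tb _ (w : ℝ →ᵇ V).continuous (Bw w) _ (clamp_mem L θ hL.le)), by
      refine mem_closedBall_zero_iff.mpr ?_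
      exact BoundedContinuousFunction.norm_ofNormedAddCommGroup_le _ hr.le _⟩ with hPsi
  have contr : ContractingWith (1 / 2) Psi := by
    refine ⟨by norm_num, LipschitzWith.of_dist_le_mul ?_⟩
    intro w1 w2
    rw [Subtype.dist_eq, BoundedContinuousFunction.dist_le (by positivity)]
    intro θ
    have h1 : ∀ s, ‖(w1 : ℝ →ᵇ V) s - (w2 : ℝ →ᵇ V) s‖ ≤ dist w1 w2 := by
      intro s
      rw [← dist_eq_norm, Subtype.dist_eq]
      exact BoundedContinuousFunction.dist_coe_le_dist s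
    have h2 := diff _ _ (w1 : ℝ →ᵇ V).continuous (w2 : ℝ →ᵇ V).continuous (Bw w1) (Bw w2)
      (dist w1 w2) h1 (clamp L θ) (clamp_mem L θ hL.le)
    rw [dist_eq_norm]
    refine le_trans (le_of_eq ?_) (h2.trans (le_of_eq ?_))
    · rfl
    · norm_num
  have : Nonempty B := ⟨⟨0, by simp [hB, hr.le]⟩⟩
  have : CompleteSpace B := (Metric.isClosed_closedBall.isComplete).completeSpace_coe
  obtain ⟨w, hw⟩ : ∃ w : B, Psi w = w := ⟨_, contr.fixedPoint_isFixedPt⟩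
  set e : ℝ → V := ⇑(w : ℝ →ᵇ V) with he
  have hec : Continuous e := (w : ℝ →ᵇ V).continuous
  have heb : ∀ s, ‖e s‖ ≤ r := Bw w
  have hfix : ∀ θ ∈ Icc (0:ℝ) L, e θ = Tp e θ := by
    intro θ hθ
    have h1 : ((Psi w : B) : ℝ →ᵇ V) θ = e θ := by rw [hw]
    have h2 : ((Psi w : B) : ℝ →ᵇ V) θ = Tp e (clamp L θ) := rfl
    rw [← h1, h2, clamp_eq L θ hθ]
  refine ⟨cf L side e, continuous_iff_continuousAt.mpr fun θ =>
      (cf_deriv L side e hec θ).continuousAt, cfb e hec heb, ?_, ?_, ?_⟩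
  · intro i hi
    simp [cf, hi]
  · intro i hi
    simp [cf, hi]
  · intro θ hθ
    have h1 := hfix θ hθ
    set R : V := Yt' θ + Φ' θ *ᵥ cf L side e θ + Φ θ *ᵥ e θ
      - σ θ • f (Yt θ + Φ θ *ᵥ cf L side e θ) with hR
    have h2 : Ψ θ *ᵥ R = 0 := by
      have h3 : Tp e θ = e θ - Ψ θ *ᵥ R := rfl
      rw [h3] at h1
      have h4 := sub_eq_self.mp h1.symm
      exact h4
    have hdet : (Ψ θ * Φ θ).det ≠ 0 := by
      intro h0
      obtain ⟨v, hv0, hv⟩ := Matrix.exists_mulVec_eq_zero_iff.mpr h0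
      have h5 : (1 - Ψ θ * Φ θ) *ᵥ v = v := by
        rw [Matrix.sub_mulVec, hv, Matrix.one_mulVec, sub_zero]
      have h6 := mulVec_norm_le _ ε1 (b1 θ) v
      rw [h5] at h6
      have h7 : 0 < ‖v‖ := norm_pos_iff.mpr hv0
      have h8 : 8 * ε1 ≤ 1 / 2 := by
        have : 0 ≤ 8 * cΨ * (8 * ε2 * L + κ * (8 * cΦ * L)) := by positivity
        linarith
      nlinarith
    have hdetΨ : (Ψ θ).det ≠ 0 := by
      intro h0
      apply hdet
      rw [Matrix.det_mul, h0, zero_mul]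
    have hR0 : R = 0 := Matrix.eq_zero_of_mulVec_eq_zero hdetΨ h2
    have hval : σ θ • f (Yt θ + Φ θ *ᵥ cf L side e θ)
        = Yt' θ + (Φ' θ *ᵥ cf L side e θ + Φ θ *ᵥ e θ) := by
      have : Yt' θ + Φ' θ *ᵥ cf L side e θ + Φ θ *ᵥ e θ
        - σ θ • f (Yt θ + Φ θ *ᵥ cf L side e θ) = 0 := hR0
      rw [sub_eq_zero] at this
      rw [← this]; abel
    rw [hval]
    have hYd : HasDerivAt Yt (Yt' θ) θ := hasDerivAt_pi.mpr (hY θ)
    refine hYd.add ?_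
    rw [hasDerivAt_pi]
    intro i
    have hcd := hasDerivAt_pi.mp (cf_deriv L side e hec θ)
    have hs : HasDerivAt (fun x => ∑ j, Φ x i j * cf L side e x j)
        (∑ j, (Φ' θ i j * cf L side e θ j + Φ θ i j * e θ j)) θ := by
      apply HasDerivAt.fun_sum
      intro j _
      exact (hΦ θ i j).mul (hcd j)
    refine hs.congr_deriv ?_
    rw [Finset.sum_add_distrib]
    rfl

end Pool.Agent.Helper342.Hom
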