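import Pool.Agent.Helper342.Hom.Exprs

set_option autoImplicit false

namespace Pool.Agent.Helper342.Hom

theorem c1c : ∀ j < 8, ∀ i < 4, chk 124 dat 128 8 (2 ^ 32) (E1 (16 + 8 * j) i) = true := by
  decide +kernel

end Pool.Agent.Helper342.Hom
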