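import Pool.Agent.Helper342.Hom.Exprs

set_option autoImplicit false

namespace Pool.Agent.Helper342.Hom

theorem c6a : ∀ j < 4, ∀ k < 8, chk 124 dat 256 9 (2 ^ 105) (E6 j k) = true := by
  decide +kernel

end Pool.Agent.Helper342.Hom
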