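import Pool.Agent.Helper342.Hom.Bvp

set_option autoImplicit false

open Set Filter Topology Matrix

namespace Pool.Agent.Helper342.Hom

/-- planar inverse-square force component `x / |(x,y)|^3` -/
noncomputable def G (x y : ℝ) : ℝ := x / (Real.sqrt (x ^ 2 + y ^ 2)) ^ 3

theorem inv_sqrt_bd (s e : ℝ) (he : e ≤ 1 / 10) (hs : |s - 1| ≤ e) :
    ∃ ρ : ℝ, 0 < ρ ∧ ρ ^ 2 * s = 1 ∧ |ρ - 1| ≤ e ∧ (1 / (Real.sqrt s) ^ 3 = ρ ^ 3) := by
  have h0 : 0 ≤ e := (abs_nonneg _).trans hs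
  obtain ⟨h1, h2⟩ := abs_le.mp hs
  have hs0 : 0 < s := by linarith
  have hq : 0 < Real.sqrt s := Real.sqrt_pos.mpr hs0
  refine ⟨1 / Real.sqrt s, by positivity, ?_, ?_, by rw [one_div, one_div, inv_pow]⟩
  · rw [div_pow, Real.sq_sqrt hs0.le]; field_simp
  · rw [abs_le]
    constructor
    · -- 1/sqrt s >= 1 - e
      have h3 : Real.sqrt s ≤ 1 + e / 2 := by
        rw [Real.sqrt_le_left (by linarith)]
        nlinarith
      have h4 : (1 - e) * Real.sqrt s ≤ 1 := by nlinarith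
      have h5 : 1 - e ≤ 1 / Real.sqrt s := by rw [le_div_iff₀ hq]; exact h4
      linarith
    · have h3 : 1 - e / 2 - e ^ 2 ≤ Real.sqrt s := by
        apply Real.le_sqrt_of_sq_le
        nlinarith [mul_nonneg h0 h0, mul_nonneg (mul_nonneg h0 h0) h0,
          mul_nonneg (mul_nonneg h0 h0) (mul_nonneg h0 h0)]
      have h4 : 1 ≤ (1 + e) * Real.sqrt s := by nlinarith [mul_nonneg h0 h0]
      have h5 : 1 / Real.sqrt s ≤ 1 + e := by rw [div_le_iff₀ hq]; exact h4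
      linarith

theorem cube_bd (ρ e : ℝ) (hρ : 0 < ρ) (he : e ≤ 1 / 10) (h : |ρ - 1| ≤ e) :
    |ρ ^ 3 - 1| ≤ 4 * e := by
  have h0 : 0 ≤ e := (abs_nonneg _).trans h
  obtain ⟨c1, c2⟩ := abs_le.mp h
  rw [abs_le]
  constructor
  · have := one_add_mul_le_pow (show (-2 : ℝ) ≤ ρ - 1 by linarith) 3
    have h2 : 1 + (ρ - 1) = ρ := by ring
    rw [h2] at this
    push_cast at this
    linarith
  · have h1 : ρ ^ 3 ≤ (1 + e) ^ 3 := pow_le_pow_left₀ hρ.le (by linarith) 3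
    nlinarith [mul_nonneg h0 h0, mul_nonneg (mul_nonneg h0 h0) h0]

theorem Q_bd (ρ ρ' e : ℝ) (he : e ≤ 1 / 100) (h : |ρ - 1| ≤ e) (h' : |ρ' - 1| ≤ e) :
    |ρ ^ 2 * ρ' ^ 2 * (ρ ^ 2 + ρ * ρ' + ρ' ^ 2) / (ρ + ρ') - 3 / 2| ≤ 8 * e := by
  have h0 : 0 ≤ e := (abs_nonneg _).trans h
  obtain ⟨a1, a2⟩ := abs_le.mp h
  obtain ⟨b1, b2⟩ := abs_le.mp h'
  have p1 : 0 < ρ := by linarith
  have p2 : 0 < ρ' := by linarith
  have hs : 0 < ρ + ρ' := by linarith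
  have u1 : ρ ^ 2 + ρ * ρ' + ρ' ^ 2 ≤ 3 / 2 * (1 + e) * (ρ + ρ') := by nlinarith
  have l1 : 3 / 2 * (1 - e) * (ρ + ρ') ≤ ρ ^ 2 + ρ * ρ' + ρ' ^ 2 := by nlinarith
  have u2 : ρ * ρ' ≤ (1 + e) ^ 2 := by nlinarith
  have l2 : (1 - e) ^ 2 ≤ ρ * ρ' := by nlinarith
  have u3 : ρ ^ 2 * ρ' ^ 2 ≤ (1 + e) ^ 4 := by
    have : (ρ * ρ') ^ 2 ≤ ((1 + e) ^ 2) ^ 2 := pow_le_pow_left₀ (by positivity) u2 2
    nlinarith
  have l3 : (1 - e) ^ 4 ≤ ρ ^ 2 * ρ' ^ 2 := by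
    have : ((1 - e) ^ 2) ^ 2 ≤ (ρ * ρ') ^ 2 := pow_le_pow_left₀ (by positivity) l2 2
    nlinarith
  have e5u : (1 + e) ^ 5 ≤ 1 + 5.2 * e := by
    nlinarith [mul_nonneg h0 h0, mul_nonneg (mul_nonneg h0 h0) h0,
      mul_nonneg (mul_nonneg h0 h0) (mul_nonneg h0 h0)]
  have e5l : 1 - 5 * e ≤ (1 - e) ^ 5 := by
    have := one_add_mul_le_pow (show (-2 : ℝ) ≤ -e by linarith) 5
    norm_num at this ⊢
    have h2 : (1 + -e) = 1 - e := by ring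
    rw [h2] at this
    linarith
  have U : ρ ^ 2 * ρ' ^ 2 * (ρ ^ 2 + ρ * ρ' + ρ' ^ 2) / (ρ + ρ') ≤ 3 / 2 + 8 * e := by
    rw [div_le_iff₀ hs]
    calc ρ ^ 2 * ρ' ^ 2 * (ρ ^ 2 + ρ * ρ' + ρ' ^ 2)
        ≤ (1 + e) ^ 4 * (3 / 2 * (1 + e) * (ρ + ρ')) :=
          mul_le_mul u3 u1 (by positivity) (by positivity)
      _ = 3 / 2 * (1 + e) ^ 5 * (ρ + ρ') := by ring
      _ ≤ (3 / 2 + 8 * e) * (ρ + ρ') := by
          apply mul_le_mul_of_nonneg_right _ hs.le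
          linarith
  have Lo : 3 / 2 - 8 * e ≤ ρ ^ 2 * ρ' ^ 2 * (ρ ^ 2 + ρ * ρ' + ρ' ^ 2) / (ρ + ρ') := by
    rw [le_div_iff₀ hs]
    have h1e : 0 ≤ 1 - e := by linarith
    calc (3 / 2 - 8 * e) * (ρ + ρ') ≤ 3 / 2 * (1 - e) ^ 5 * (ρ + ρ') := by
          apply mul_le_mul_of_nonneg_right _ hs.le
          linarith
      _ = (1 - e) ^ 4 * (3 / 2 * (1 - e) * (ρ + ρ')) := by ring
      _ ≤ ρ ^ 2 * ρ' ^ 2 * (ρ ^ 2 + ρ * ρ' + ρ' ^ 2) :=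
          mul_le_mul l3 l1 (by positivity) (by positivity)
  rw [abs_le]
  constructor <;> linarith

/-- remainder at unit scale -/
theorem unit_rem (a b x y x' y' ε d : ℝ) (hε : ε ≤ 1 / 1000) (hd : d ≤ 1 / 1000)
    (hab : |a ^ 2 + b ^ 2 - 1| ≤ ε) (hx : |x - a| ≤ d) (hy : |y - b| ≤ d)
    (hx' : |x' - a| ≤ d) (hy' : |y' - b| ≤ d) (m : ℝ) (hm1 : |x - x'| ≤ m) (hm2 : |y - y'| ≤ m) :
    |G x y - G x' y' - ((1 - 3 * a ^ 2) * (x - x') - 3 * a * b * (y - y'))| ≤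
      200 * (ε + d) * m := by
  have hε0 : 0 ≤ ε := (abs_nonneg _).trans hab
  have hd0 : 0 ≤ d := (abs_nonneg _).trans hx
  have hm0 : 0 ≤ m := (abs_nonneg _).trans hm1
  obtain ⟨ab1, ab2⟩ := abs_le.mp hab
  have ha : |a| ≤ 1.001 := by
    rw [abs_le]; constructor <;> nlinarith
  have hb : |b| ≤ 1.001 := by
    rw [abs_le]; constructor <;> nlinarith
  obtain ⟨a1, a2⟩ := abs_le.mp ha
  obtain ⟨b1, b2⟩ := abs_le.mp hb
  obtain ⟨x1, x2⟩ := abs_le.mp hx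
  obtain ⟨y1, y2⟩ := abs_le.mp hy
  obtain ⟨x1', x2'⟩ := abs_le.mp hx'
  obtain ⟨y1', y2'⟩ := abs_le.mp hy'
  have sq : ∀ u v : ℝ, |u - v| ≤ d → |v| ≤ 1.001 → |u ^ 2 - v ^ 2| ≤ 2.01 * d := by
    intro u v h1 h2
    have h3 : u ^ 2 - v ^ 2 = (u - v) * ((u - v) + 2 * v) := by ring
    rw [h3, abs_mul]
    have h4 : |(u - v) + 2 * v| ≤ 2.01 := by
      refine (abs_add_le _ _).trans ?_
      rw [abs_mul, abs_of_pos (by norm_num : (0:ℝ) < 2)]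
      linarith
    calc |u - v| * |(u - v) + 2 * v| ≤ d * 2.01 :=
          mul_le_mul h1 h4 (abs_nonneg _) hd0
      _ = 2.01 * d := by ring
  set e : ℝ := ε + 4.02 * d with he
  have he0 : 0 ≤ e := by positivity
  have he1 : e ≤ 1 / 100 := by rw [he]; linarith
  have hs : |x ^ 2 + y ^ 2 - 1| ≤ e := by
    have h1 := sq x a hx ha
    have h2 := sq y b hy hb
    have h3 : x ^ 2 + y ^ 2 - 1 = (x ^ 2 - a ^ 2) + (y ^ 2 - b ^ 2) + (a ^ 2 + b ^ 2 - 1) := by ring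
    rw [h3]
    refine (abs_add_three _ _ _).trans ?_
    rw [he]; linarith
  have hs' : |x' ^ 2 + y' ^ 2 - 1| ≤ e := by
    have h1 := sq x' a hx' ha
    have h2 := sq y' b hy' hb
    have h3 : x' ^ 2 + y' ^ 2 - 1 = (x' ^ 2 - a ^ 2) + (y' ^ 2 - b ^ 2) + (a ^ 2 + b ^ 2 - 1) := by
      ring
    rw [h3]
    refine (abs_add_three _ _ _).trans ?_
    rw [he]; linarith
  obtain ⟨ρ, hρ, hρs, hρ1, hρ3⟩ := inv_sqrt_bd (x ^ 2 + y ^ 2) e (by linarith) hs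
  obtain ⟨ρ', hρ', hρs', hρ1', hρ3'⟩ := inv_sqrt_bd (x' ^ 2 + y' ^ 2) e (by linarith) hs'
  have hQ := Q_bd ρ ρ' e he1 hρ1 hρ1'
  set Q : ℝ := ρ ^ 2 * ρ' ^ 2 * (ρ ^ 2 + ρ * ρ' + ρ' ^ 2) / (ρ + ρ') with hQdef
  have hG : G x y = x * ρ ^ 3 := by
    unfold G; rw [← hρ3]; ring
  have hG' : G x' y' = x' * ρ' ^ 3 := by
    unfold G; rw [← hρ3']; ring
  have hsum : ρ + ρ' ≠ 0 := by positivity
  have hdiff : ρ ^ 3 - ρ' ^ 3 = -Q * ((x + x') * (x - x') + (y + y') * (y - y')) := by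
    have h1 : Q * (ρ + ρ') = ρ ^ 2 * ρ' ^ 2 * (ρ ^ 2 + ρ * ρ' + ρ' ^ 2) := by
      rw [hQdef]; field_simp
    have h2 : (ρ ^ 3 - ρ' ^ 3) * (ρ + ρ') =
        (ρ ^ 2 + ρ * ρ' + ρ' ^ 2) * (ρ ^ 2 - ρ' ^ 2) := by ring
    have h3 : ρ ^ 2 - ρ' ^ 2 = ρ ^ 2 * ρ' ^ 2 * ((x' ^ 2 + y' ^ 2) - (x ^ 2 + y ^ 2)) := by
      linear_combination (-ρ ^ 2) * hρs' + ρ' ^ 2 * hρs
    apply mul_right_cancel₀ hsum
    rw [h2, h3]
    linear_combination (-((x + x') * (x - x') + (y + y') * (y - y'))) * h1 * (-1)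
  have key : G x y - G x' y' - ((1 - 3 * a ^ 2) * (x - x') - 3 * a * b * (y - y'))
      = (ρ ^ 3 - 1) * (x - x') - (Q * ((x + x') * x') - 3 * a ^ 2) * (x - x')
        - (Q * ((y + y') * x') - 3 * a * b) * (y - y') := by
    rw [hG, hG']
    linear_combination x' * hdiff
  rw [key]
  have r1 : |ρ ^ 3 - 1| ≤ 4 * e := cube_bd ρ e hρ (by linarith) hρ1
  have xx' : |x'| ≤ 1.01 := by rw [abs_le]; constructor <;> linarith
  have t1 : |(x + x') * x' - 2 * a ^ 2| ≤ 4.1 * d := by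
    have h3 : (x + x') * x' - 2 * a ^ 2 = ((x - a) + (x' - a)) * x' + 2 * a * (x' - a) := by ring
    rw [h3]
    refine (abs_add_le _ _).trans ?_
    rw [abs_mul, abs_mul, abs_mul, abs_of_pos (by norm_num : (0:ℝ) < 2)]
    have h4 : |(x - a) + (x' - a)| ≤ 2 * d := (abs_add_le _ _).trans (by linarith)
    have h5 : |(x - a) + (x' - a)| * |x'| ≤ 2 * d * 1.01 :=
      mul_le_mul h4 xx' (abs_nonneg _) (by positivity)
    have h6 : 2 * |a| * |x' - a| ≤ 2 * 1.001 * d :=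
      mul_le_mul (by linarith) hx' (abs_nonneg _) (by norm_num)
    linarith
  have t2 : |(y + y') * x' - 2 * a * b| ≤ 4.1 * d := by
    have h3 : (y + y') * x' - 2 * a * b = ((y - b) + (y' - b)) * x' + 2 * b * (x' - a) := by ring
    rw [h3]
    refine (abs_add_le _ _).trans ?_
    rw [abs_mul, abs_mul, abs_mul, abs_of_pos (by norm_num : (0:ℝ) < 2)]
    have h4 : |(y - b) + (y' - b)| ≤ 2 * d := (abs_add_le _ _).trans (by linarith)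
    have h5 : |(y - b) + (y' - b)| * |x'| ≤ 2 * d * 1.01 :=
      mul_le_mul h4 xx' (abs_nonneg _) (by positivity)
    have h6 : 2 * |b| * |x' - a| ≤ 2 * 1.001 * d :=
      mul_le_mul (by linarith) hx' (abs_nonneg _) (by norm_num)
    linarith
  have big : ∀ w c : ℝ, |w - 2 * c| ≤ 4.1 * d → |2 * c| ≤ 2.01 → |Q * w - 3 * c| ≤
      8 * e * 2.02 + 3 / 2 * (4.1 * d) := by
    intro w c h1 h2
    have h3 : Q * w - 3 * c = (Q - 3 / 2) * w + 3 / 2 * (w - 2 * c) := by ring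
    rw [h3]
    refine (abs_add_le _ _).trans ?_
    rw [abs_mul, abs_mul, abs_of_pos (by norm_num : (0:ℝ) < 3 / 2)]
    have h4 : |w| ≤ 2.02 := by
      have : w = (w - 2 * c) + 2 * c := by ring
      rw [this]
      refine (abs_add_le _ _).trans ?_
      linarith
    have h5 : |Q - 3 / 2| * |w| ≤ 8 * e * 2.02 := mul_le_mul hQ h4 (abs_nonneg _) (by positivity)
    linarith
  have aa : |2 * a ^ 2| ≤ 2.01 := by
    rw [abs_of_nonneg (by positivity)]; nlinarith [abs_nonneg a, sq_abs a]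
  have bb : |2 * (a * b)| ≤ 2.01 := by
    rw [abs_mul, abs_mul, abs_of_pos (by norm_num : (0:ℝ) < 2)]
    nlinarith [abs_nonneg a, abs_nonneg b, mul_nonneg (sub_nonneg.mpr ha) (sub_nonneg.mpr hb)]
  have k1 := big ((x + x') * x') (a ^ 2) t1 aa
  have k2 := big ((y + y') * x') (a * b) (by rw [← mul_assoc]; exact t2) bb
  have hk2 : Q * ((y + y') * x') - 3 * (a * b) = Q * ((y + y') * x') - 3 * a * b := by ring
  rw [hk2] at k2
  set B : ℝ := 8 * e * 2.02 + 3 / 2 * (4.1 * d) with hB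
  have hB0 : 0 ≤ B := by positivity
  have f1 : |(ρ ^ 3 - 1) * (x - x')| ≤ 4 * e * m := by
    rw [abs_mul]; exact mul_le_mul r1 hm1 (abs_nonneg _) (by positivity)
  have f2 : |(Q * ((x + x') * x') - 3 * a ^ 2) * (x - x')| ≤ B * m := by
    rw [abs_mul]; exact mul_le_mul k1 hm1 (abs_nonneg _) hB0
  have f3 : |(Q * ((y + y') * x') - 3 * a * b) * (y - y')| ≤ B * m := by
    rw [abs_mul]; exact mul_le_mul k2 hm2 (abs_nonneg _) hB0
  calc _ ≤ 4 * e * m + B * m + B * m := by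
        refine (abs_sub _ _).trans ?_
        refine add_le_add ((abs_sub _ _).trans (add_le_add f1 f2)) f3
    _ = (4 * e + 2 * B) * m := by ring
    _ ≤ 200 * (ε + d) * m := by
        apply mul_le_mul_of_nonneg_right _ hm0
        rw [hB, he]
        linarith

theorem G_scale (R x y : ℝ) (hR : 0 < R) : G x y = R ^ 2 * G (R * x) (R * y) := by
  unfold G
  have h1 : (R * x) ^ 2 + (R * y) ^ 2 = R ^ 2 * (x ^ 2 + y ^ 2) := by ring
  rw [h1, Real.sqrt_mul (by positivity), Real.sqrt_sq hR.le]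
  by_cases h : Real.sqrt (x ^ 2 + y ^ 2) = 0
  · simp [h]
  · field_simp

/-- remainder of a pair force about an approximate orbit with approximate inverse distance `R` -/
theorem pair_rem (R x0 y0 x y x' y' ε d Rm : ℝ) (hR : 0 < R) (hRm : R ≤ Rm)
    (hε : ε ≤ 1 / 1000) (hd : Rm * d ≤ 1 / 1000)
    (h0 : |R ^ 2 * (x0 ^ 2 + y0 ^ 2) - 1| ≤ ε) (hx : |x - x0| ≤ d) (hy : |y - y0| ≤ d)
    (hx' : |x' - x0| ≤ d) (hy' : |y' - y0| ≤ d) (m : ℝ) (hm1 : |x - x'| ≤ m) (hm2 : |y - y'| ≤ m) :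
    |G x y - G x' y' - ((R ^ 3 - 3 * R ^ 5 * x0 ^ 2) * (x - x') - 3 * R ^ 5 * x0 * y0 * (y - y'))|
      ≤ Rm ^ 3 * (200 * (ε + Rm * d)) * m := by
  have hε0 : 0 ≤ ε := (abs_nonneg _).trans h0
  have hd0 : 0 ≤ d := (abs_nonneg _).trans hx
  have hm0 : 0 ≤ m := (abs_nonneg _).trans hm1
  have hRm0 : 0 < Rm := hR.trans_le hRm
  have sc : ∀ u v : ℝ, ∀ c, |u - v| ≤ c → 0 ≤ c → |R * u - R * v| ≤ Rm * c := by
    intro u v c h hc
    rw [← mul_sub, abs_mul, abs_of_pos hR]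
    exact mul_le_mul hRm h (abs_nonneg _) hRm0.le
  have sc2 : ∀ u v : ℝ, |u - v| ≤ m → |R * u - R * v| ≤ R * m := by
    intro u v h
    rw [← mul_sub, abs_mul, abs_of_pos hR]
    exact mul_le_mul_of_nonneg_left h hR.le
  have h1 := unit_rem (R * x0) (R * y0) (R * x) (R * y) (R * x') (R * y') ε (Rm * d) hε hd
    (by rw [mul_pow, mul_pow, ← mul_add]; exact h0) (sc _ _ _ hx hd0) (sc _ _ _ hy hd0)
    (sc _ _ _ hx' hd0) (sc _ _ _ hy' hd0) (R * m) (sc2 _ _ hm1) (sc2 _ _ hm2)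
  rw [G_scale R x y hR, G_scale R x' y' hR]
  have h2 : R ^ 2 * G (R * x) (R * y) - R ^ 2 * G (R * x') (R * y')
      - ((R ^ 3 - 3 * R ^ 5 * x0 ^ 2) * (x - x') - 3 * R ^ 5 * x0 * y0 * (y - y'))
      = R ^ 2 * (G (R * x) (R * y) - G (R * x') (R * y')
        - ((1 - 3 * (R * x0) ^ 2) * (R * x - R * x') - 3 * (R * x0) * (R * y0) * (R * y - R * y'))) := by
    ring
  rw [h2, abs_mul, abs_of_pos (by positivity : (0:ℝ) < R ^ 2)]
  calc R ^ 2 * _ ≤ R ^ 2 * (200 * (ε + Rm * d) * (R * m)) :=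
        mul_le_mul_of_nonneg_left h1 (by positivity)
    _ = R ^ 3 * (200 * (ε + Rm * d)) * m := by ring
    _ ≤ Rm ^ 3 * (200 * (ε + Rm * d)) * m := by
        have : R ^ 3 ≤ Rm ^ 3 := pow_le_pow_left₀ hR.le hRm 3
        apply mul_le_mul_of_nonneg_right _ hm0
        apply mul_le_mul_of_nonneg_right this (by positivity)

/-- value of the pair force at the approximate orbit -/
theorem pair_val (R x0 y0 ε Rm : ℝ) (hR : 0 < R) (hRm : R ≤ Rm)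
    (hε : ε ≤ 1 / 1000) (h0 : |R ^ 2 * (x0 ^ 2 + y0 ^ 2) - 1| ≤ ε) :
    |G x0 y0 - R ^ 3 * x0| ≤ Rm ^ 2 * (5 * ε) := by
  have hε0 : 0 ≤ ε := (abs_nonneg _).trans h0
  have hs : |(R * x0) ^ 2 + (R * y0) ^ 2 - 1| ≤ ε := by
    rw [mul_pow, mul_pow, ← mul_add]; exact h0
  obtain ⟨ρ, hρ, hρs, hρ1, hρ3⟩ := inv_sqrt_bd _ ε (by linarith) hs
  have r1 : |ρ ^ 3 - 1| ≤ 4 * ε := cube_bd ρ ε hρ (by linarith) hρ1
  have hx : |R * x0| ≤ 1.01 := by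
    obtain ⟨c1, c2⟩ := abs_le.mp hs
    rw [abs_le]; constructor <;> nlinarith [sq_nonneg (R * y0)]
  rw [G_scale R x0 y0 hR]
  have hG : G (R * x0) (R * y0) = R * x0 * ρ ^ 3 := by
    unfold G; rw [← hρ3]; ring
  rw [hG]
  have h2 : R ^ 2 * (R * x0 * ρ ^ 3) - R ^ 3 * x0 = R ^ 2 * ((R * x0) * (ρ ^ 3 - 1)) := by ring
  rw [h2, abs_mul, abs_mul, abs_of_pos (by positivity : (0:ℝ) < R ^ 2)]
  have h3 : |R * x0| * |ρ ^ 3 - 1| ≤ 1.01 * (4 * ε) := mul_le_mul hx r1 (abs_nonneg _) (by norm_num)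
  have h4 : R ^ 2 ≤ Rm ^ 2 := pow_le_pow_left₀ hR.le hRm 2
  calc R ^ 2 * (|R * x0| * |ρ ^ 3 - 1|) ≤ Rm ^ 2 * (5 * ε) := by
        apply mul_le_mul h4 _ (by positivity) (by positivity)
        linarith

end Pool.Agent.Helper342.Hom
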