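import Pool.Agent.Helper342.Hom.Sem
import Pool.Agent.Helper342.Hom.Force
import Pool.Agent.Helper342.Hom.Chk0
import Pool.Agent.Helper342.Hom.Chk1
import Pool.Agent.Helper342.Hom.Chk2
import Pool.Agent.Helper342.Hom.Chk3
import Pool.Agent.Helper342.Hom.Chk4
import Pool.Agent.Helper342.Hom.Chk5
import Pool.Agent.Helper342.Hom.Chk6
import Pool.Agent.Helper342.Hom.Chk7

set_option autoImplicit false

open Set Filter Topology Matrix

namespace Pool.Agent.Helper342.Hom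

/-- the vector field -/
noncomputable def f (Y : V) : V :=
  ![Y 4, Y 5, Y 6, Y 7,
    -5 * (G (Y 0 + Y 2) (Y 1 + Y 3) + G (Y 0 - Y 2) (Y 1 - Y 3)),
    -5 * (G (Y 1 + Y 3) (Y 0 + Y 2) + G (Y 1 - Y 3) (Y 0 - Y 2)),
    -(G (Y 0 + Y 2) (Y 1 + Y 3) - G (Y 0 - Y 2) (Y 1 - Y 3)) - G (Y 2) (Y 3),
    -(G (Y 1 + Y 3) (Y 0 + Y 2) - G (Y 1 - Y 3) (Y 0 - Y 2)) - G (Y 3) (Y 2)]

/-- approximate orbit -/
noncomputable def Yt (θ : ℝ) : V := fun i => v i.val θ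
noncomputable def Yt' (θ : ℝ) : V := fun i => v' i.val θ
/-- approximate fundamental matrix -/
noncomputable def Ph (θ : ℝ) : Matrix (Fin 8) (Fin 8) ℝ := fun i j => v (16 + 8 * j.val + i.val) θ
noncomputable def Ph' (θ : ℝ) : Matrix (Fin 8) (Fin 8) ℝ := fun i j => v' (16 + 8 * j.val + i.val) θ
/-- its approximate inverse -/
noncomputable def Ps (θ : ℝ) : Matrix (Fin 8) (Fin 8) ℝ := fun j i =>
  ((sgz j.val : ℝ) * (sgz i.val : ℝ) * (wz i.val : ℝ)) *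
    v (16 + 8 * ((j.val + 4) % 8) + (i.val + 4) % 8) θ

/-- derivative of a pair force -/
noncomputable def gg (p c e : ℕ) (θ : ℝ) : ℝ :=
  (if c = e then rv p θ ^ 3 else 0) - 3 * rv p θ ^ 5 * pv p c 0 θ * pv p e 0 θ

/-- approximate Jacobian -/
noncomputable def Am (θ : ℝ) : Matrix (Fin 8) (Fin 8) ℝ :=
  !![0, 0, 0, 0, 1, 0, 0, 0;
     0, 0, 0, 0, 0, 1, 0, 0;
     0, 0, 0, 0, 0, 0, 1, 0;
     0, 0, 0, 0, 0, 0, 0, 1;
     -5 * (gg 0 0 0 θ + gg 1 0 0 θ), -5 * (gg 0 0 1 θ + gg 1 0 1 θ),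
       -5 * (gg 0 0 0 θ - gg 1 0 0 θ), -5 * (gg 0 0 1 θ - gg 1 0 1 θ), 0, 0, 0, 0;
     -5 * (gg 0 1 0 θ + gg 1 1 0 θ), -5 * (gg 0 1 1 θ + gg 1 1 1 θ),
       -5 * (gg 0 1 0 θ - gg 1 1 0 θ), -5 * (gg 0 1 1 θ - gg 1 1 1 θ), 0, 0, 0, 0;
     -(gg 0 0 0 θ - gg 1 0 0 θ), -(gg 0 0 1 θ - gg 1 0 1 θ),
       -(gg 0 0 0 θ + gg 1 0 0 θ) - gg 2 0 0 θ, -(gg 0 0 1 θ + gg 1 0 1 θ) - gg 2 0 1 θ, 0, 0, 0, 0;
     -(gg 0 1 0 θ - gg 1 1 0 θ), -(gg 0 1 1 θ - gg 1 1 1 θ),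
       -(gg 0 1 0 θ + gg 1 1 0 θ) - gg 2 1 0 θ, -(gg 0 1 1 θ + gg 1 1 1 θ) - gg 2 1 1 θ, 0, 0, 0, 0]

theorem v_bound (i : ℕ) (hi : i < 64) (θ : ℝ) : |v (16 + i) θ| ≤ 32 / 5 := by
  have h1 := cosL_le (dat (16 + i)) θ
  have h2 := cb i hi
  have h3 : (10 : ℝ) * la (dat (16 + i)) ≤ 32 * 2 ^ 80 := by exact_mod_cast h2
  rw [v, abs_div, abs_of_pos (by positivity : (0:ℝ) < 2 ^ 80), div_le_iff₀ (by positivity)]
  linarith

attribute [local irreducible] v v' dat raw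

theorem Ph_bound (θ : ℝ) (i j : Fin 8) : |Ph θ i j| ≤ 32 / 5 := by
  have := v_bound (8 * j.val + i.val) (by omega) θ
  rw [← add_assoc] at this
  exact this

theorem Ps_bound (θ : ℝ) (i j : Fin 8) : |Ps θ i j| ≤ 32 := by
  have h1 := v_bound (8 * ((i.val + 4) % 8) + (j.val + 4) % 8) (by omega) θ
  rw [← add_assoc] at h1
  have h2 : |((sgz i.val : ℝ) * (sgz j.val : ℝ) * (wz j.val : ℝ))| ≤ 5 := by
    unfold sgz wz
    split_ifs <;> norm_num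
  simp only [Ps]
  rw [abs_mul]
  calc _ ≤ 5 * (32 / 5 : ℝ) := mul_le_mul h2 h1 (abs_nonneg _) (by norm_num)
    _ = 32 := by norm_num

theorem b1 (θ : ℝ) (j k : Fin 8) : |(1 - Ps θ * Ph θ) j k| ≤ 1 / 2 ^ 55 := by
  have hc : chk 124 dat 256 9 (2 ^ 105) (E6 j.val k.val) = true := by
    rcases lt_or_ge j.val 4 with h | h
    · exact c6a j.val h k.val k.isLt
    · have := c6b (j.val - 4) (by omega) k.val k.isLt
      rwa [Nat.sub_add_cancel h] at this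
  have h1 := bound_E6 256 9 j.val k.val 105 55 (by norm_num) hc θ
  have h2 : (1 - Ps θ * Ph θ) j k = (if j.val = k.val then 1 else 0 : ℝ)
      - (t6 j.val k.val 0 θ + t6 j.val k.val 1 θ + t6 j.val k.val 2 θ + t6 j.val k.val 3 θ
      + t6 j.val k.val 4 θ + t6 j.val k.val 5 θ + t6 j.val k.val 6 θ + t6 j.val k.val 7 θ) := by
    rw [Matrix.sub_apply, Matrix.mul_apply, Fin.sum_univ_eight, Matrix.one_apply]
    congr 1
    · simp only [Fin.ext_iff]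
    · simp only [Ps, Ph, t6]
      norm_num
      ring
  rw [h2]
  exact h1

theorem gh_eq (p c o : ℕ) (hc : c < 2) (θ : ℝ) :
    gh p c o θ = gg p c 0 θ * pv p 0 o θ + gg p c 1 θ * pv p 1 o θ := by
  interval_cases c
  · simp only [gh, gg, if_true]
    norm_num
    ring
  · simp only [gh, gg, if_true]
    norm_num
    ring

theorem c5 (j : Fin 8) (w c : ℕ) (hw : w < 2) (hc : c < 2) :
    chk 124 dat 704 11 (2 ^ 592) (E5 w c (16 + 8 * j.val)) = true := by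
  fin_cases j
  · exact c5_0 w hw c hc
  · exact c5_1 w hw c hc
  · exact c5_2 w hw c hc
  · exact c5_3 w hw c hc
  · exact c5_4 w hw c hc
  · exact c5_5 w hw c hc
  · exact c5_6 w hw c hc
  · exact c5_7 w hw c hc

theorem b2_lo (θ : ℝ) (j : Fin 8) (i : ℕ) (hi : i < 4) :
    |v' (16 + 8 * j.val + i) θ - Real.sin θ * v (16 + 8 * j.val + i + 4) θ| ≤ 1 / 2 ^ 49 :=
  bound_E1 128 8 (16 + 8 * j.val) i 32 49 (by norm_num) (c1c j.val j.isLt i hi) θ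

theorem b2_hi (θ : ℝ) (j : Fin 8) (w c : ℕ) (hw : w < 2) (hc : c < 2) :
    |v' (16 + 8 * j.val + 4 + 2 * w + c) θ - Real.sin θ * Lh w c (16 + 8 * j.val) θ|
      ≤ 1 / 2 ^ 49 :=
  bound_E5 704 11 w c (16 + 8 * j.val) 592 49 (by norm_num) (c5 j w c hw hc) θ

theorem b2 (θ : ℝ) (i j : Fin 8) :
    |(Ph' θ - Real.sin θ • (Am θ * Ph θ)) i j| ≤ 1 / 2 ^ 49 := by
  rw [Matrix.sub_apply, Matrix.smul_apply, Matrix.mul_apply, Fin.sum_univ_eight]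
  fin_cases i
  · refine le_of_eq_of_le (congrArg abs ?_) (b2_lo θ j 0 (by norm_num))
    simp [Am, Ph, Ph']
  · refine le_of_eq_of_le (congrArg abs ?_) (b2_lo θ j 1 (by norm_num))
    simp [Am, Ph, Ph']
  · refine le_of_eq_of_le (congrArg abs ?_) (b2_lo θ j 2 (by norm_num))
    simp [Am, Ph, Ph']
  · refine le_of_eq_of_le (congrArg abs ?_) (b2_lo θ j 3 (by norm_num))
    simp [Am, Ph, Ph']
  · refine le_of_eq_of_le (congrArg abs ?_) (b2_hi θ j 0 0 (by norm_num) (by norm_num))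
    simp [Am, Ph, Ph', Lh, gh_eq, pv]
    ring
  · refine le_of_eq_of_le (congrArg abs ?_) (b2_hi θ j 0 1 (by norm_num) (by norm_num))
    simp [Am, Ph, Ph', Lh, gh_eq, pv]
    ring
  · refine le_of_eq_of_le (congrArg abs ?_) (b2_hi θ j 1 0 (by norm_num) (by norm_num))
    simp [Am, Ph, Ph', Lh, gh_eq, pv]
    left
    ring
  · refine le_of_eq_of_le (congrArg abs ?_) (b2_hi θ j 1 1 (by norm_num) (by norm_num))
    simp [Am, Ph, Ph', Lh, gh_eq, pv]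
    left
    ring

theorem e3 (θ : ℝ) (p : ℕ) (hp : p < 3) :
    |rv p θ ^ 2 * (pv p 0 0 θ ^ 2 + pv p 1 0 θ ^ 2) - 1| ≤ 1 / 2 ^ 63 :=
  bound_E3 384 10 p 257 63 (by norm_num) (c3 p hp) θ

theorem rv_cont (p : ℕ) : Continuous (rv p) := v_cont _

theorem rv_ne (θ : ℝ) (p : ℕ) (hp : p < 3) : rv p θ ≠ 0 := by
  intro h
  have h1 := e3 θ p hp
  rw [h] at h1
  norm_num at h1

theorem v_at_zero (i : ℕ) : v i 0 = ((2 * hnI 1 (dat i) - (dat i).headD 0 : ℤ) : ℝ) / 2 ^ 80 := by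
  unfold v; rw [cosL_zero]

theorem v_at_pi (i : ℕ) :
    v i Real.pi = ((2 * hnI (-1) (dat i) - (dat i).headD 0 : ℤ) : ℝ) / 2 ^ 80 := by
  unfold v; rw [cosL_pi]

theorem rv_pos (θ : ℝ) (p : ℕ) (hp : p < 3) : 0 < rv p θ := by
  have h0 : 0 < rv p 0 := by
    unfold rv
    rw [v_at_zero]
    have := pr0 p hp
    have h2 : (0 : ℝ) < ((2 * hnI 1 (dat (8 + p)) - (dat (8 + p)).headD 0 : ℤ) : ℝ) := by
      exact_mod_cast this
    positivity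
  by_contra hneg
  push Not at hneg
  have hne := rv_ne θ p hp
  have hlt : rv p θ < 0 := lt_of_le_of_ne hneg hne
  obtain ⟨c, hc⟩ := mem_range_of_exists_le_of_exists_ge (rv_cont p) ⟨θ, hlt.le⟩ ⟨0, h0.le⟩
  exact rv_ne c p hp hc

theorem rv_le (θ : ℝ) (p : ℕ) (a b : ℕ) (hb : 0 < b) (h : 2 * b * la (dat (8 + p)) ≤ a * 2 ^ 80) :
    rv p θ ≤ (a : ℝ) / b := by
  have h1 := cosL_le (dat (8 + p)) θ
  have h3 : (2 : ℝ) * b * la (dat (8 + p)) ≤ a * 2 ^ 80 := by exact_mod_cast h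
  have h4 : rv p θ = cosL (dat (8 + p)) θ / 2 ^ 80 := by unfold rv v; rfl
  rw [h4, div_le_div_iff₀ (by positivity) (by exact_mod_cast hb)]
  have h5 := (abs_le.mp h1).2
  have h6 : (0:ℝ) < b := by exact_mod_cast hb
  nlinarith

theorem rv0_le (θ : ℝ) : rv 0 θ ≤ 11 / 10 := by
  have := rv_le θ 0 11 10 (by norm_num) (by have := cr0; simpa using this)
  simpa using this
theorem rv1_le (θ : ℝ) : rv 1 θ ≤ 11 / 5 := by
  have := rv_le θ 1 11 5 (by norm_num) (by have := cr1; simpa using this)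
  simpa using this
theorem rv2_le (θ : ℝ) : rv 2 θ ≤ 5 := by
  have := rv_le θ 2 5 1 (by norm_num) (by have := cr2; simpa using this)
  simpa using this

theorem pair_c (θ : ℝ) (p : ℕ) (hp : p < 3) (Rm d m x y x' y' : ℝ) (hRm : rv p θ ≤ Rm)
    (hd : Rm * d ≤ 1 / 1000)
    (hx : |x - pv p 0 0 θ| ≤ d) (hy : |y - pv p 1 0 θ| ≤ d)
    (hx' : |x' - pv p 0 0 θ| ≤ d) (hy' : |y' - pv p 1 0 θ| ≤ d)
    (hm1 : |x - x'| ≤ m) (hm2 : |y - y'| ≤ m) :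
    |G x y - G x' y' - (gg p 0 0 θ * (x - x') + gg p 0 1 θ * (y - y'))| ≤
      Rm ^ 3 * (200 * (1 / 2 ^ 63 + Rm * d)) * m ∧
    |G y x - G y' x' - (gg p 1 0 θ * (x - x') + gg p 1 1 θ * (y - y'))| ≤
      Rm ^ 3 * (200 * (1 / 2 ^ 63 + Rm * d)) * m := by
  have h0 := e3 θ p hp
  have hR := rv_pos θ p hp
  constructor
  · have h1 := pair_rem (rv p θ) (pv p 0 0 θ) (pv p 1 0 θ) x y x' y' (1 / 2 ^ 63) d Rm hR hRm
      (by norm_num) hd h0 hx hy hx' hy' m hm1 hm2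
    refine le_of_eq_of_le (congrArg abs ?_) h1
    simp only [gg, if_true]
    norm_num
    ring
  · have h1 := pair_rem (rv p θ) (pv p 1 0 θ) (pv p 0 0 θ) y x y' x' (1 / 2 ^ 63) d Rm hR hRm
      (by norm_num) hd (by rw [add_comm (pv p 1 0 θ ^ 2)]; exact h0) hy hx hy' hx' m hm2 hm1
    refine le_of_eq_of_le (congrArg abs ?_) h1
    simp only [gg, if_true]
    norm_num
    ring

theorem ex_err {g1 g2 l e : ℝ} (h : |g1 - g2 - l| ≤ e) : ∃ a, |a| ≤ e ∧ g1 - g2 = l + a :=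
  ⟨g1 - g2 - l, h, by ring⟩

theorem b4 (θ : ℝ) (z z' : V) (hz : ‖z‖ ≤ 1 / 2 ^ 37) (hz' : ‖z'‖ ≤ 1 / 2 ^ 37) :
    ‖f (Yt θ + z) - f (Yt θ + z') - Am θ *ᵥ (z - z')‖ ≤ 1 / 2 ^ 19 * ‖z - z'‖ := by
  set D : ℝ := ‖z - z'‖ with hD
  have D0 : 0 ≤ D := norm_nonneg _
  have hzi : ∀ i, |z i| ≤ 1 / 2 ^ 37 := fun i => (norm_le_pi_norm z i).trans hz
  have hzi' : ∀ i, |z' i| ≤ 1 / 2 ^ 37 := fun i => (norm_le_pi_norm z' i).trans hz'
  have hdi : ∀ i, |z i - z' i| ≤ D := fun i => norm_le_pi_norm (z - z') i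
  have s1 : ∀ (i j : Fin 8) (a b : ℝ), |(a + z i + (b + z j)) - (a + b)| ≤ 1 / 2 ^ 36 := by
    intro i j a b
    have : (a + z i + (b + z j)) - (a + b) = z i + z j := by ring
    rw [this]
    refine (abs_add_le _ _).trans ?_
    have := hzi i; have := hzi j
    norm_num at *; linarith
  have s1' : ∀ (i j : Fin 8) (a b : ℝ), |(a + z' i + (b + z' j)) - (a + b)| ≤ 1 / 2 ^ 36 := by
    intro i j a b
    have : (a + z' i + (b + z' j)) - (a + b) = z' i + z' j := by ring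
    rw [this]
    refine (abs_add_le _ _).trans ?_
    have := hzi' i; have := hzi' j
    norm_num at *; linarith
  have s2 : ∀ (i j : Fin 8) (a b : ℝ), |(a + z i - (b + z j)) - (a - b)| ≤ 1 / 2 ^ 36 := by
    intro i j a b
    have : (a + z i - (b + z j)) - (a - b) = z i - z j := by ring
    rw [this]
    refine (abs_sub _ _).trans ?_
    have := hzi i; have := hzi j
    norm_num at *; linarith
  have s2' : ∀ (i j : Fin 8) (a b : ℝ), |(a + z' i - (b + z' j)) - (a - b)| ≤ 1 / 2 ^ 36 := by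
    intro i j a b
    have : (a + z' i - (b + z' j)) - (a - b) = z' i - z' j := by ring
    rw [this]
    refine (abs_sub _ _).trans ?_
    have := hzi' i; have := hzi' j
    norm_num at *; linarith
  have s3 : ∀ (i : Fin 8) (a : ℝ), |(a + z i) - a| ≤ 1 / 2 ^ 37 := by
    intro i a; rw [add_sub_cancel_left]; exact hzi i
  have s3' : ∀ (i : Fin 8) (a : ℝ), |(a + z' i) - a| ≤ 1 / 2 ^ 37 := by
    intro i a; rw [add_sub_cancel_left]; exact hzi' i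
  have m1 : ∀ (i j : Fin 8) (a b : ℝ), |(a + z i + (b + z j)) - (a + z' i + (b + z' j))| ≤ 2 * D := by
    intro i j a b
    have : (a + z i + (b + z j)) - (a + z' i + (b + z' j)) = (z i - z' i) + (z j - z' j) := by ring
    rw [this]
    refine (abs_add_le _ _).trans ?_
    linarith [hdi i, hdi j]
  have m2 : ∀ (i j : Fin 8) (a b : ℝ), |(a + z i - (b + z j)) - (a + z' i - (b + z' j))| ≤ 2 * D := by
    intro i j a b
    have : (a + z i - (b + z j)) - (a + z' i - (b + z' j)) = (z i - z' i) - (z j - z' j) := by ring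
    rw [this]
    refine (abs_sub _ _).trans ?_
    linarith [hdi i, hdi j]
  have m3 : ∀ (i : Fin 8) (a : ℝ), |(a + z i) - (a + z' i)| ≤ D := by
    intro i a
    have : (a + z i) - (a + z' i) = z i - z' i := by ring
    rw [this]; exact hdi i
  obtain ⟨A1, A2⟩ := pair_c θ 0 (by norm_num) (11 / 10) (1 / 2 ^ 36) (2 * D)
    (v 0 θ + z 0 + (v 2 θ + z 2)) (v 1 θ + z 1 + (v 3 θ + z 3))
    (v 0 θ + z' 0 + (v 2 θ + z' 2)) (v 1 θ + z' 1 + (v 3 θ + z' 3)) (rv0_le θ) (by norm_num)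
    (s1 0 2 _ _) (s1 1 3 _ _) (s1' 0 2 _ _) (s1' 1 3 _ _) (m1 0 2 _ _) (m1 1 3 _ _)
  obtain ⟨B1, B2⟩ := pair_c θ 1 (by norm_num) (11 / 5) (1 / 2 ^ 36) (2 * D)
    (v 0 θ + z 0 - (v 2 θ + z 2)) (v 1 θ + z 1 - (v 3 θ + z 3))
    (v 0 θ + z' 0 - (v 2 θ + z' 2)) (v 1 θ + z' 1 - (v 3 θ + z' 3)) (rv1_le θ) (by norm_num)
    (s2 0 2 _ _) (s2 1 3 _ _) (s2' 0 2 _ _) (s2' 1 3 _ _) (m2 0 2 _ _) (m2 1 3 _ _)
  obtain ⟨C1, C2⟩ := pair_c θ 2 (by norm_num) 5 (1 / 2 ^ 37) D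
    (v 2 θ + z 2) (v 3 θ + z 3) (v 2 θ + z' 2) (v 3 θ + z' 3) (rv2_le θ) (by norm_num)
    (s3 2 _) (s3 3 _) (s3' 2 _) (s3' 3 _) (m3 2 _) (m3 3 _)
  have EA : (11 / 10 : ℝ) ^ 3 * (200 * (1 / 2 ^ 63 + 11 / 10 * (1 / 2 ^ 36))) * (2 * D)
      ≤ 1 / 2 ^ 23 * D := by
    rw [show (11 / 10 : ℝ) ^ 3 * (200 * (1 / 2 ^ 63 + 11 / 10 * (1 / 2 ^ 36))) * (2 * D)
      = ((11 / 10 : ℝ) ^ 3 * (200 * (1 / 2 ^ 63 + 11 / 10 * (1 / 2 ^ 36))) * 2) * D by ring]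
    exact mul_le_mul_of_nonneg_right (by norm_num) D0
  have EB : (11 / 5 : ℝ) ^ 3 * (200 * (1 / 2 ^ 63 + 11 / 5 * (1 / 2 ^ 36))) * (2 * D)
      ≤ 1 / 4 * (1 / 2 ^ 20) * D := by
    rw [show (11 / 5 : ℝ) ^ 3 * (200 * (1 / 2 ^ 63 + 11 / 5 * (1 / 2 ^ 36))) * (2 * D)
      = ((11 / 5 : ℝ) ^ 3 * (200 * (1 / 2 ^ 63 + 11 / 5 * (1 / 2 ^ 36))) * 2) * D by ring]
    exact mul_le_mul_of_nonneg_right (by norm_num) D0
  have EC : (5 : ℝ) ^ 3 * (200 * (1 / 2 ^ 63 + 5 * (1 / 2 ^ 37))) * D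
      ≤ 1 / 2 ^ 20 * D :=
    mul_le_mul_of_nonneg_right (by norm_num) D0
  obtain ⟨a1, ha1, A1⟩ := ex_err A1
  obtain ⟨a2, ha2, A2⟩ := ex_err A2
  obtain ⟨b1, hb1, B1⟩ := ex_err B1
  obtain ⟨b2, hb2, B2⟩ := ex_err B2
  obtain ⟨c1, hc1, C1⟩ := ex_err C1
  obtain ⟨c2, hc2, C2⟩ := ex_err C2
  rw [pi_norm_le_iff_of_nonneg (by positivity)]
  intro i
  rw [Real.norm_eq_abs]
  have tot : ∀ x : ℝ, x = 0 → |x| ≤ 1 / 2 ^ 19 * D := by
    intro x hx; rw [hx, abs_zero]; positivity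
  have totv : ∀ x a b : ℝ, x = -5 * (a + b) → |a| ≤ 1 / 2 ^ 23 * D →
      |b| ≤ 1 / 4 * (1 / 2 ^ 20) * D → |x| ≤ 1 / 2 ^ 19 * D := by
    intro x a b hx ha hb
    rw [hx, abs_mul, abs_neg, abs_of_pos (by norm_num : (0:ℝ) < 5)]
    have := abs_add_le a b
    linarith
  have totw : ∀ x a b c : ℝ, x = -(a - b) - c → |a| ≤ 1 / 2 ^ 23 * D →
      |b| ≤ 1 / 4 * (1 / 2 ^ 20) * D → |c| ≤ 1 / 2 ^ 20 * D → |x| ≤ 1 / 2 ^ 19 * D := by
    intro x a b c hx ha hb hc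
    rw [hx]
    have h1 := abs_sub (-(a - b)) c
    rw [abs_neg] at h1
    have h2 := abs_sub a b
    linarith
  fin_cases i
  · apply tot
    simp [f, Am, dotProduct, Fin.sum_univ_eight, Yt]
  · apply tot
    simp [f, Am, dotProduct, Fin.sum_univ_eight, Yt]
  · apply tot
    simp [f, Am, dotProduct, Fin.sum_univ_eight, Yt]
  · apply tot
    simp [f, Am, dotProduct, Fin.sum_univ_eight, Yt]
  · refine totv _ a1 b1 ?_ (ha1.trans EA) (hb1.trans EB)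
    simp [f, Am, dotProduct, Fin.sum_univ_eight, Yt]
    linear_combination (-5) * A1 + (-5) * B1
  · refine totv _ a2 b2 ?_ (ha2.trans EA) (hb2.trans EB)
    simp [f, Am, dotProduct, Fin.sum_univ_eight, Yt]
    linear_combination (-5) * A2 + (-5) * B2
  · refine totw _ a1 b1 c1 ?_ (ha1.trans EA) (hb1.trans EB) (hc1.trans EC)
    simp [f, Am, dotProduct, Fin.sum_univ_eight, Yt]
    linear_combination (-1) * A1 + B1 - C1
  · refine totw _ a2 b2 c2 ?_ (ha2.trans EA) (hb2.trans EB) (hc2.trans EC)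
    simp [f, Am, dotProduct, Fin.sum_univ_eight, Yt]
    linear_combination (-1) * A2 + B2 - C2

end Pool.Agent.Helper342.Hom
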