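import Pool.Agent.Helper342.Hom.Mats

set_option autoImplicit false

open Set Filter Topology Matrix

namespace Pool.Agent.Helper342.Hom

attribute [local irreducible] v v' dat raw

theorem fv (θ : ℝ) (x y : ℝ) (h1 : |x| ≤ 1 / 2 ^ 55) (h2 : |y| ≤ 1 / 2 ^ 55) :
    |x - Real.sin θ * y| ≤ 1 / 2 ^ 54 := by
  refine (abs_sub _ _).trans ?_
  rw [abs_mul]
  have h3 : |Real.sin θ| * |y| ≤ 1 * (1 / 2 ^ 55) :=
    mul_le_mul (Real.abs_sin_le_one θ) h2 (abs_nonneg _) (by norm_num)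
  have h4 : (1 : ℝ) / 2 ^ 54 = 1 / 2 ^ 55 + 1 / 2 ^ 55 := by norm_num
  rw [h4]
  linarith

theorem pv_val (θ : ℝ) (p : ℕ) (hp : p < 3) (Rm : ℝ) (hRm : rv p θ ≤ Rm) :
    |G (pv p 0 0 θ) (pv p 1 0 θ) - rv p θ ^ 3 * pv p 0 0 θ| ≤ Rm ^ 2 * (5 * (1 / 2 ^ 63)) ∧
    |G (pv p 1 0 θ) (pv p 0 0 θ) - rv p θ ^ 3 * pv p 1 0 θ| ≤ Rm ^ 2 * (5 * (1 / 2 ^ 63)) := by
  have h0 := e3 θ p hp
  have hR := rv_pos θ p hp
  exact ⟨pair_val _ _ _ _ _ hR hRm (by norm_num) h0,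
    pair_val _ _ _ _ _ hR hRm (by norm_num) (by rw [add_comm]; exact h0)⟩

theorem b3 (θ : ℝ) : ‖Yt' θ - Real.sin θ • f (Yt θ)‖ ≤ 1 / 2 ^ 54 := by
  obtain ⟨A1, A2⟩ := pv_val θ 0 (by norm_num) (11 / 10) (rv0_le θ)
  obtain ⟨B1, B2⟩ := pv_val θ 1 (by norm_num) (11 / 5) (rv1_le θ)
  obtain ⟨C1, C2⟩ := pv_val θ 2 (by norm_num) 5 (rv2_le θ)
  have lo : ∀ i < 4, |v' i θ - Real.sin θ * v (i + 4) θ| ≤ 1 / 2 ^ 54 := by
    intro i hi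
    have h1 := bound_E1 128 8 0 i 26 55 (by norm_num) (c1 i hi) θ
    rw [zero_add] at h1
    refine h1.trans (by norm_num)
  have hi : ∀ w < 2, ∀ c < 2, |v' (4 + 2 * w + c) θ - Real.sin θ * Fh w c θ| ≤ 1 / 2 ^ 55 :=
    fun w hw c hc => bound_E2 384 10 w c 266 55 (by norm_num) (c2 w hw c hc) θ
  have comb : ∀ x g F : ℝ, |x - Real.sin θ * F| ≤ 1 / 2 ^ 55 → |g - F| ≤ 1 / 2 ^ 55 →
      |x - Real.sin θ * g| ≤ 1 / 2 ^ 54 := by
    intro x g F h1 h2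
    have h3 := fv θ (x - Real.sin θ * F) (g - F) h1 h2
    have h4 : x - Real.sin θ * g = x - Real.sin θ * F - Real.sin θ * (g - F) := by ring
    rw [h4]; exact h3
  have totv : ∀ a b Fa Fb : ℝ, |a - Fa| ≤ (11 / 10 : ℝ) ^ 2 * (5 * (1 / 2 ^ 63)) →
      |b - Fb| ≤ (11 / 5 : ℝ) ^ 2 * (5 * (1 / 2 ^ 63)) →
      |-5 * (a + b) - (-5 * (Fa + Fb))| ≤ 1 / 2 ^ 55 := by
    intro a b Fa Fb ha hb
    have h1 : -5 * (a + b) - (-5 * (Fa + Fb)) = -5 * ((a - Fa) + (b - Fb)) := by ring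
    rw [h1, abs_mul, abs_neg, abs_of_pos (by norm_num : (0:ℝ) < 5)]
    have := abs_add_le (a - Fa) (b - Fb)
    norm_num at *
    linarith
  have totw : ∀ a b c Fa Fb Fc : ℝ, |a - Fa| ≤ (11 / 10 : ℝ) ^ 2 * (5 * (1 / 2 ^ 63)) →
      |b - Fb| ≤ (11 / 5 : ℝ) ^ 2 * (5 * (1 / 2 ^ 63)) →
      |c - Fc| ≤ (5 : ℝ) ^ 2 * (5 * (1 / 2 ^ 63)) →
      |(-(a - b) - c) - (-(Fa - Fb) - Fc)| ≤ 1 / 2 ^ 55 := by
    intro a b c Fa Fb Fc ha hb hc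
    have h1 : (-(a - b) - c) - (-(Fa - Fb) - Fc) = -((a - Fa) - (b - Fb)) - (c - Fc) := by ring
    rw [h1]
    have h2 := abs_sub (-((a - Fa) - (b - Fb))) (c - Fc)
    rw [abs_neg] at h2
    have h3 := abs_sub (a - Fa) (b - Fb)
    norm_num at *
    linarith
  rw [pi_norm_le_iff_of_nonneg (by positivity)]
  intro i
  rw [Real.norm_eq_abs]
  fin_cases i
  · exact lo 0 (by norm_num)
  · exact lo 1 (by norm_num)
  · exact lo 2 (by norm_num)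
  · exact lo 3 (by norm_num)
  · exact comb _ _ _ (hi 0 (by norm_num) 0 (by norm_num)) (totv _ _ _ _ A1 B1)
  · exact comb _ _ _ (hi 0 (by norm_num) 1 (by norm_num)) (totv _ _ _ _ A2 B2)
  · exact comb _ _ _ (hi 1 (by norm_num) 0 (by norm_num)) (totw _ _ _ _ _ _ A1 B1 C1)
  · exact comb _ _ _ (hi 1 (by norm_num) 1 (by norm_num)) (totw _ _ _ _ _ _ A2 B2 C2)

theorem v0z (i : ℕ) (hi : i ∈ [0, 1, 6, 7]) : v i 0 = 0 := by
  rw [v_at_zero, z0 i hi]; norm_num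
theorem v0zc (j : ℕ) (hj : j < 4) (i : ℕ) (hi : i ∈ [0, 1, 6, 7]) : v (16 + 8 * j + i) 0 = 0 := by
  rw [v_at_zero, z0c j hj i hi]; norm_num
theorem vpz (i : ℕ) (hi : i ∈ [1, 3, 4, 6]) : v i Real.pi = 0 := by
  rw [v_at_pi, zp i hi]; norm_num
theorem vpzc (j : ℕ) (hj : j < 4) (i : ℕ) (hi : i ∈ [1, 3, 4, 6]) :
    v (16 + 8 * (j + 4) + i) Real.pi = 0 := by
  rw [v_at_pi, zpc j hj i hi]; norm_num

theorem exists_orbit : ∃ Y : ℝ → V,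
    (∀ θ ∈ Icc (0:ℝ) Real.pi, HasDerivAt Y (Real.sin θ • f (Y θ)) θ) ∧
    (∀ θ ∈ Icc (0:ℝ) Real.pi, ‖Y θ - Yt θ‖ ≤ 1 / 2 ^ 37) ∧
    (Y 0 0 = 0 ∧ Y 0 1 = 0 ∧ Y 0 6 = 0 ∧ Y 0 7 = 0) ∧
    (Y Real.pi 1 = 0 ∧ Y Real.pi 3 = 0 ∧ Y Real.pi 4 = 0 ∧ Y Real.pi 6 = 0) := by
  have hpi := Real.pi_lt_d2
  have hpi0 := Real.pi_pos
  obtain ⟨c, hc, hcb, hc0, hcL, hder⟩ := bvp Real.pi Real.pi_pos (fun i : Fin 8 => 4 ≤ i.val)
    Ph Ph' Am Ps Yt Yt' Real.sin f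
    (fun θ i j => v_deriv _ θ) (fun i j => v'_cont _)
    (fun i j => continuous_const.mul (v_cont _))
    (fun θ i => v_deriv _ θ) (fun i => v'_cont _) Real.continuous_sin Real.abs_sin_le_one
    (32 / 5) 32 (1 / 2 ^ 55) (1 / 2 ^ 49) (1 / 2 ^ 54) (1 / 2 ^ 19) (1 / 2 ^ 37) (1 / 2 ^ 45)
    (by norm_num) (by norm_num) (by norm_num) Ph_bound Ps_bound b1 b2 b3 b4
    (by norm_num; nlinarith) (by norm_num; nlinarith) (by norm_num)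
  refine ⟨fun θ => Yt θ + Ph θ *ᵥ c θ, hder, ?_, ?_, ?_⟩
  · intro θ hθ
    rw [add_sub_cancel_left]
    refine (mulVec_norm_le _ (32 / 5) (Ph_bound θ) _).trans ?_
    have := hcb θ hθ
    norm_num at *
    nlinarith
  · have hv : ∀ i : Fin 8, i.val ∈ [0, 1, 6, 7] → (Yt 0 + Ph 0 *ᵥ c 0) i = 0 := by
      intro i hi
      have h1 : (Ph 0 *ᵥ c 0) i = ∑ j, Ph 0 i j * c 0 j := rfl
      rw [Pi.add_apply, h1]
      have h2 : Yt 0 i = 0 := v0z i.val hi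
      rw [h2, zero_add]
      apply Finset.sum_eq_zero
      intro j _
      rcases lt_or_ge j.val 4 with h | h
      · have : Ph 0 i j = 0 := v0zc j.val h i.val hi
        rw [this, zero_mul]
      · rw [hc0 j h, mul_zero]
    exact ⟨hv 0 (by simp), hv 1 (by simp), hv 6 (by simp), hv 7 (by simp)⟩
  · have hv : ∀ i : Fin 8, i.val ∈ [1, 3, 4, 6] →
        (Yt Real.pi + Ph Real.pi *ᵥ c Real.pi) i = 0 := by
      intro i hi
      have h1 : (Ph Real.pi *ᵥ c Real.pi) i = ∑ j, Ph Real.pi i j * c Real.pi j := rfl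
      rw [Pi.add_apply, h1]
      have h2 : Yt Real.pi i = 0 := vpz i.val hi
      rw [h2, zero_add]
      apply Finset.sum_eq_zero
      intro j _
      rcases lt_or_ge j.val 4 with h | h
      · rw [hcL j (not_le.mpr h), mul_zero]
      · have : Ph Real.pi i j = 0 := by
          have := vpzc (j.val - 4) (by omega) i.val hi
          rw [Nat.sub_add_cancel h] at this
          exact this
        rw [this, zero_mul]
    exact ⟨hv 1 (by simp), hv 3 (by simp), hv 4 (by simp), hv 6 (by simp)⟩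

end Pool.Agent.Helper342.Hom
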